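import Pool.Agent.helper36.PT.Spec

/-! # Project PT, row PAI: the weighted sum for a pair -/

set_option autoImplicit false

namespace Pool.Agent.PT

open Finset Pool.Agent.helper71.AA

lemma PAI_az {Q : Finset ℕ} {p : ℕ} (hp : p.Prime) (a : ℤ) : Az Q p a ⊆ Q.erase p := by
  intro l hl
  rw [Az, mem_filter] at hl
  refine mem_erase.2 ⟨?_, hl.1⟩
  rintro rfl
  have h1 : (l : ℤ) ∣ a * (l : ℤ) ^ 2 := Dvd.dvd.mul_left (dvd_pow_self _ two_ne_zero) a
  have h2 : (l : ℤ) ∣ 1 := by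
    have h3 := dvd_sub h1 hl.2
    rwa [sub_sub_cancel] at h3
  have h4 : l ∣ 1 := by exact_mod_cast h2
  exact hp.one_lt.ne' (Nat.dvd_one.1 h4)

lemma PAI_F {Q : Finset ℕ} {p : ℕ} (hp : p.Prime) {F ξ : Finset ℕ → ℝ} (h : Rep (Q.erase p) F ξ)
    (a : ℤ) : F (Az Q p a) = ∑ D ∈ (Q.erase p).powerset, if D ⊆ Az Q p a then ξ D else 0 := by
  rw [h _ (PAI_az hp a), ← sum_filter]
  refine sum_congr ?_ fun _ _ => rfl
  ext D
  rw [mem_powerset, mem_filter, mem_powerset]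
  exact ⟨fun h => ⟨h.trans (PAI_az hp a), h⟩, fun h => h.2⟩

/-- the summand of a pair -/
noncomputable def PAI_g (Q : Finset ℕ) (p q : ℕ) (x : ℝ) (D E : Finset ℕ) (a : ℤ) : ℝ :=
  if D ⊆ Az Q p a ∧ E ⊆ Az Q q a then x else 0

lemma PAI_bd (Q : Finset ℕ) (p q : ℕ) (x : ℝ) (D E : Finset ℕ) : Bd (PAI_g Q p q x D E) := by
  refine ⟨|x|, fun a => ?_⟩
  unfold PAI_g
  split_ifs
  · exact le_rfl
  · rw [abs_zero]
    exact abs_nonneg x

lemma PAI_prod {Q : Finset ℕ} {p q : ℕ} (hp : p.Prime) (hq : q.Prime) {F F' ξ ζ : Finset ℕ → ℝ}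
    (h : Rep (Q.erase p) F ξ) (h' : Rep (Q.erase q) F' ζ) :
    (fun a : ℤ => F (Az Q p a) * F' (Az Q q a)) =
      fun a => ∑ D ∈ (Q.erase p).powerset, ∑ E ∈ (Q.erase q).powerset,
        PAI_g Q p q (ξ D * ζ E) D E a := by
  funext a
  rw [PAI_F hp h a, PAI_F hq h' a, sum_mul_sum]
  refine sum_congr rfl fun D _ => sum_congr rfl fun E _ => ?_
  unfold PAI_g
  by_cases h1 : D ⊆ Az Q p a
  · by_cases h2 : E ⊆ Az Q q a
    · rw [if_pos h1, if_pos h2, if_pos ⟨h1, h2⟩]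
    · rw [if_neg h2, if_neg (fun hh : D ⊆ Az Q p a ∧ E ⊆ Az Q q a => h2 hh.2), mul_zero]
  · rw [if_neg h1, if_neg (fun hh : D ⊆ Az Q p a ∧ E ⊆ Az Q q a => h1 hh.1), zero_mul]

theorem PAI (h1 : CLS_stmt) (h2 : CEX_stmt) : PAI_stmt := by
  intro w a₀ X Q p q F F' ξ ζ hX hQ hp hq hF hF' c hc
  have hN : 0 < 2 * X := by linarith
  rw [PAI_prod hp hq hF hF', EN_sum _ _ (fun D _ => Bd.sum _ _ fun E _ => PAI_bd Q p q _ D E) _ _ _ hN,
    mul_sum, Er, Complex.ofReal_sum, Complex.ofReal_sum, ← sum_add_distrib]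
  refine sum_congr rfl fun D hD => ?_
  rw [EN_sum _ _ (fun E _ => PAI_bd Q p q _ D E) _ _ _ hN, mul_sum, Complex.ofReal_sum,
    Complex.ofReal_sum, ← sum_add_distrib]
  refine sum_congr rfl fun E hE => ?_
  rw [mem_powerset] at hD hE
  obtain ⟨h3, h4⟩ := h2 w a₀ Q p q hQ hp hq D hD E hE
  by_cases hN' : D ∩ E ⊆ Nn Q p q
  · rw [if_pos hN']
    have h5 := (h3 hN').2 (c D E) (hc D hD E hE hN')
    obtain ⟨m, hm⟩ : ∃ m : ℕ, m = primorial w * ∏ l ∈ D ∪ E, l := ⟨_, rfl⟩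
    rw [← hm] at h5 ⊢
    have hl : ∀ l ∈ D ∪ E, 0 < l := by
      intro l hl
      rcases mem_union.1 hl with h | h
      · exact (hQ l (mem_of_mem_erase (hD h))).1.pos
      · exact (hQ l (mem_of_mem_erase (hE h))).1.pos
    have hm0 : 0 < m := by
      rw [hm]
      exact Nat.mul_pos (primorial_pos w) (prod_pos hl)
    have h6 : EN (primorial w) a₀ (2 * X) (PAI_g Q p q (ξ D * ζ E) D E) =
        (ξ D * ζ E) * ∑' a : ℤ, (if (m : ℤ) ∣ a - c D E then Fz (2 * X) a else 0) := by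
      unfold EN PAI_g
      rw [← tsum_mul_left]
      refine tsum_congr fun a => ?_
      by_cases h7 : (m : ℤ) ∣ a - c D E
      · obtain ⟨h8, h9, h10⟩ := (h5 a).2 h7
        rw [if_pos h8, if_pos ⟨h9, h10⟩, if_pos h7]
        ring
      · rw [if_neg h7, mul_zero]
        by_cases h8 : ((primorial w : ℕ) : ℤ) ∣ a - a₀
        · rw [if_pos h8, if_neg, mul_zero]
          exact fun h9 => h7 ((h5 a).1 ⟨h8, h9.1, h9.2⟩)
        · rw [if_neg h8]
    have h7 := h1 (2 * X) m (c D E) (by linarith) hm0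
    have h8 : 2 * X / (primorial w : ℝ) * (ξ D * ζ E * rho (Nn Q p q) D E) =
        (ξ D * ζ E) * (2 * X / m) := by
      unfold rho pr
      rw [if_pos hN', hm]
      push_cast
      have hw : ((primorial w : ℕ) : ℝ) ≠ 0 := by exact_mod_cast (primorial_pos w).ne'
      have hpr : (∏ l ∈ D ∪ E, (l : ℝ)) ≠ 0 :=
        prod_ne_zero_iff.2 fun l hl' => by exact_mod_cast (hl l hl').ne'
      field_simp
    show ((EN (primorial w) a₀ (2 * X) (PAI_g Q p q (ξ D * ζ E) D E) : ℝ) : ℂ) = _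
    rw [h6, h8, Complex.ofReal_mul (ξ D * ζ E) (2 * X / m), Complex.ofReal_mul, h7, mul_add]
  · rw [if_neg hN', add_zero]
    have h6 : EN (primorial w) a₀ (2 * X) (PAI_g Q p q (ξ D * ζ E) D E) = 0 := by
      unfold EN PAI_g
      have h7 : ∀ a : ℤ, (if ((primorial w : ℕ) : ℤ) ∣ a - a₀ then
          Fz (2 * X) a * (if D ⊆ Az Q p a ∧ E ⊆ Az Q q a then ξ D * ζ E else 0) else 0) = 0 := by
        intro a
        rw [if_neg (h4 hN' a), mul_zero, ite_self]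
      rw [tsum_congr h7, tsum_zero]
    have h8 : rho (Nn Q p q) D E = 0 := by
      unfold rho
      rw [if_neg hN']
    show ((EN (primorial w) a₀ (2 * X) (PAI_g Q p q (ξ D * ζ E) D E) : ℝ) : ℂ) = _
    rw [h6, h8, mul_zero, mul_zero]

end Pool.Agent.PT
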